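import Pool.Agent.helper37.P2.SpecA

set_option autoImplicit false

/-!
# Project P2, row INTM
-/

open scoped ContDiff Topology
open MeasureTheory Filter Set Metric MvPolynomial Pool.Agent.helper37.QA

namespace Pool.Agent.P2

/-- Hermitian product -/
noncomputable def INTM_ip {m : ℕ} (v w : Fin m → ℂ) : ℂ := ∑ i, v i * (starRingEnd ℂ) (w i)

theorem INTM_ip_self {m : ℕ} (v : Fin m → ℂ) : INTM_ip v v = ((nq v : ℝ) : ℂ) := by
  unfold INTM_ip nq
  rw [Complex.ofReal_sum]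
  refine Finset.sum_congr rfl fun i _ => ?_
  exact Complex.mul_conj (v i)

/-- Lagrange -/
theorem INTM_binet (n a b : E3) : INTM_ip (crs n a) (crs n b) = INTM_ip n n * INTM_ip a b - INTM_ip n b * INTM_ip a n := by
  simp only [INTM_ip, crs, Fin.sum_univ_three]
  simp
  ring

theorem INTM_quad (Φ Ψ A : E3) :
    crs (crs Φ Ψ) (crs A Ψ) = fun i => -(crs Φ Ψ ⬝ᵥ A) * Ψ i := by
  funext i
  fin_cases i <;> simp [crs, dotProduct, Fin.sum_univ_three] <;> ring

theorem INTM_quad2 (Φ Ψ B : E3) :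
    crs (crs Φ Ψ) (crs Φ B) = fun i => (crs Φ Ψ ⬝ᵥ B) * Φ i := by
  funext i
  fin_cases i <;> simp [crs, dotProduct, Fin.sum_univ_three] <;> ring

/-- `c ↦ (v ↦ Re (c v))` -/
noncomputable def INTM_Lam : ℂ →L[ℝ] (ℂ →L[ℝ] ℝ) :=
  (ContinuousLinearMap.compL ℝ ℂ ℂ ℝ Complex.reCLM).comp (ContinuousLinearMap.mul ℝ ℂ)

theorem INTM_Lam_apply (c v : ℂ) : INTM_Lam c v = (c * v).re := rfl

theorem INTM_conj {f : ℂ → ℂ} {f' t : ℂ} (h : HasDerivAt f f' t) :
    HasFDerivAt (fun t => (starRingEnd ℂ) (f t)) (Complex.conjCLE.toContinuousLinearMap.comp (f' • (1 : ℂ →L[ℝ] ℂ))) t :=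
  Complex.conjCLE.toContinuousLinearMap.hasFDerivAt.comp t h.complexToReal_fderiv

theorem INTM_nsq {f : ℂ → ℂ} {f' t : ℂ} (h : HasDerivAt f f' t) :
    HasFDerivAt (fun t => Complex.normSq (f t)) ((2 : ℝ) • INTM_Lam ((starRingEnd ℂ) (f t) * f')) t := by
  have h1 := h.complexToReal_fderiv
  have hre : HasFDerivAt (fun t => (f t).re) (Complex.reCLM.comp (f' • (1 : ℂ →L[ℝ] ℂ))) t :=
    Complex.reCLM.hasFDerivAt.comp t h1
  have him : HasFDerivAt (fun t => (f t).im) (Complex.imCLM.comp (f' • (1 : ℂ →L[ℝ] ℂ))) t :=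
    Complex.imCLM.hasFDerivAt.comp t h1
  have h2 := (hre.mul hre).add (him.mul him)
  have e1 : (fun t => Complex.normSq (f t)) = (fun t => (f t).re * (f t).re + (f t).im * (f t).im) := by
    funext t
    exact Complex.normSq_apply _
  rw [e1]
  refine h2.congr_fderiv ?_
  ext v
  all_goals
    simp [INTM_Lam_apply]
    ring

/-- the Laplacian of `(1/2) log ‖G‖²` -/
theorem INTM_lap {m : ℕ} (G : ℂ → Fin m → ℂ) (Ω : Set ℂ) (hΩ : IsOpen Ω) (z : ℂ) (hz : z ∈ Ω)
    (hG : DifferentiableOn ℂ G Ω) (h0 : G z ≠ 0) :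
    lap (fun t => (1 / 2) * Real.log (nq (G t))) z =
      (nq (G z) * nq (deriv G z) - Complex.normSq (INTM_ip (deriv G z) (G z))) / (2 * nq (G z) ^ 2) := by
  -- first derivatives
  have hd1 : ∀ t ∈ Ω, ∀ i, HasDerivAt (fun t => G t i) (deriv G t i) t := by
    intro t ht i
    have h1 : HasDerivAt G (deriv G t) t := (hG.differentiableAt (hΩ.mem_nhds ht)).hasDerivAt
    exact (hasDerivAt_pi.1 h1) i
  have hdG : DifferentiableOn ℂ (deriv G) Ω := hG.deriv hΩ
  have hd2 : ∀ i, HasDerivAt (fun t => deriv G t i) (deriv (deriv G) z i) z := by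
    intro i
    have h1 : HasDerivAt (deriv G) (deriv (deriv G) z) z :=
      (hdG.differentiableAt (hΩ.mem_nhds hz)).hasDerivAt
    exact (hasDerivAt_pi.1 h1) i
  set N : ℂ → ℝ := fun t => nq (G t) with hN
  set S : ℂ → ℂ := fun t => ∑ i, (starRingEnd ℂ) (G t i) * deriv G t i with hS
  have hNpos : 0 < N z := by
    have h1 : ∃ i, G z i ≠ 0 := by
      by_contra hcon
      push Not at hcon
      exact h0 (funext hcon)
    obtain ⟨i, hi⟩ := h1
    have h2 : 0 < Complex.normSq (G z i) := Complex.normSq_pos.2 hi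
    exact lt_of_lt_of_le h2 (Finset.single_le_sum (f := fun i => Complex.normSq (G z i))
      (fun i _ => Complex.normSq_nonneg _) (Finset.mem_univ i))
  have hNd : ∀ t ∈ Ω, HasFDerivAt N ((2 : ℝ) • INTM_Lam (S t)) t := by
    intro t ht
    have h1 := HasFDerivAt.fun_sum (u := Finset.univ) fun i _ => INTM_nsq (hd1 t ht i)
    refine h1.congr_fderiv ?_
    rw [hS, map_sum, Finset.smul_sum]
  -- the first derivative of the function
  have hev : ∀ᶠ t in 𝓝 z, t ∈ Ω ∧ N t ≠ 0 := by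
    have h1 : ContinuousAt N z := (hNd z hz).continuousAt
    exact (hΩ.mem_nhds hz) |> fun h => h |> fun h => (Filter.Eventually.and h (h1.eventually_ne hNpos.ne'))
  set D : ℂ → (ℂ →L[ℝ] ℝ) := fun t => (N t)⁻¹ • INTM_Lam (S t) with hD
  have hg1 : ∀ᶠ t in 𝓝 z, HasFDerivAt (fun t => (1 / 2) * Real.log (nq (G t))) (D t) t := by
    filter_upwards [hev] with t ht
    have h1 := ((hNd t ht.1).log ht.2).const_mul (1 / 2 : ℝ)
    refine h1.congr_fderiv ?_
    rw [hD]
    simp only [smul_smul]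
    congr 1
    ring
  have hfd : fderiv ℝ (fun t => (1 / 2) * Real.log (nq (G t))) =ᶠ[𝓝 z] D := by
    filter_upwards [hg1] with t ht
    exact ht.fderiv
  -- the second derivative
  set E : ℂ := ∑ i, (starRingEnd ℂ) (G z i) * deriv (deriv G) z i with hE
  have hM : ((nq (deriv G z) : ℝ) : ℂ) = ∑ i, deriv G z i * (starRingEnd ℂ) (deriv G z i) :=
    (INTM_ip_self (deriv G z)).symm
  set Sd : ℂ →L[ℝ] ℂ := E • (1 : ℂ →L[ℝ] ℂ) +
    ((nq (deriv G z) : ℝ) : ℂ) • Complex.conjCLE.toContinuousLinearMap with hSdd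
  have hSdv : ∀ v, Sd v = E * v + ((nq (deriv G z) : ℝ) : ℂ) * (starRingEnd ℂ) v := by
    intro v
    rw [hSdd]
    simp
  have hSd : HasFDerivAt S Sd z := by
    have h1 : HasFDerivAt S (∑ i, ((starRingEnd ℂ) (G z i) • (deriv (deriv G) z i • (1 : ℂ →L[ℝ] ℂ)) +
      deriv G z i • (Complex.conjCLE.toContinuousLinearMap.comp (deriv G z i • (1 : ℂ →L[ℝ] ℂ))))) z := by
      refine HasFDerivAt.fun_sum fun i _ => ?_
      exact (INTM_conj (hd1 z hz i)).mul (hd2 i).complexToReal_fderiv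
    refine h1.congr_fderiv ?_
    refine ContinuousLinearMap.ext fun v => ?_
    rw [hSdv, hE, hM, Finset.sum_mul, Finset.sum_mul, ← Finset.sum_add_distrib, sum_apply]
    refine Finset.sum_congr rfl fun i _ => ?_
    simp
    ring
  have hNi : HasFDerivAt (fun t => (N t)⁻¹) (-((N z) ^ 2)⁻¹ • ((2 : ℝ) • INTM_Lam (S z))) z :=
    (hasDerivAt_inv hNpos.ne').comp_hasFDerivAt z (hNd z hz)
  have hDd := hNi.smul (INTM_Lam.hasFDerivAt.comp z hSd)
  have hDf : fderiv ℝ (fderiv ℝ (fun t => (1 / 2) * Real.log (nq (G t)))) z = _ :=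
    hfd.fderiv_eq.trans hDd.fderiv
  have hns : ∑ i, Complex.normSq (deriv G z i) = nq (deriv G z) := rfl
  have hSip : Complex.normSq (S z) = Complex.normSq (INTM_ip (deriv G z) (G z)) := by
    congr 1
    rw [hS, INTM_ip]
    exact Finset.sum_congr rfl fun i _ => mul_comm _ _
  have hA : ∀ v : ℂ, ((N z)⁻¹ • INTM_Lam.comp Sd +
      (-((N z) ^ 2)⁻¹ • ((2 : ℝ) • INTM_Lam (S z))).smulRight (INTM_Lam (S z))) v v =
      (N z)⁻¹ * (Sd v * v).re - 2 * ((N z) ^ 2)⁻¹ * ((S z * v).re) ^ 2 := by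
    intro v
    simp only [add_apply, smul_apply, ContinuousLinearMap.comp_apply, ContinuousLinearMap.smulRight_apply,
      INTM_Lam_apply, smul_eq_mul]
    ring
  rw [lap, iteratedFDeriv_two_apply, iteratedFDeriv_two_apply, hDf, ← hSip]
  have h1 : (Sd 1 * 1).re = E.re + nq (deriv G z) := by
    rw [hSdv]
    simp
  have h2 : (Sd Complex.I * Complex.I).re = -E.re + nq (deriv G z) := by
    rw [hSdv]
    simp
    ring
  have e1 := hA 1
  have e2 := hA Complex.I
  rw [h1] at e1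
  rw [h2] at e2
  have e3 : (S z * 1).re = (S z).re := by simp
  have e4 : (S z * Complex.I).re = -(S z).im := by simp
  rw [e3] at e1
  rw [e4] at e2
  show (1 / 4) * (((N z)⁻¹ • INTM_Lam.comp Sd +
      (-((N z) ^ 2)⁻¹ • ((2 : ℝ) • INTM_Lam (S z))).smulRight (INTM_Lam (S z))) 1 1 +
      ((N z)⁻¹ • INTM_Lam.comp Sd +
      (-((N z) ^ 2)⁻¹ • ((2 : ℝ) • INTM_Lam (S z))).smulRight (INTM_Lam (S z))) Complex.I Complex.I) = _
  rw [e1, e2, Complex.normSq_apply]
  have hNz : N z = nq (G z) := rfl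
  rw [← hNz]
  field_simp
  ring

theorem INTM_crs {f g : ℂ → E3} {f' g' : E3} {t : ℂ} (hf : HasDerivAt f f' t) (hg : HasDerivAt g g' t) :
    HasDerivAt (fun t => crs (f t) (g t)) (crs f' (g t) + crs (f t) g') t := by
  have h1 := hasDerivAt_pi.1 hf
  have h2 := hasDerivAt_pi.1 hg
  refine hasDerivAt_pi.2 fun i => ?_
  fin_cases i
  · refine ((((h1 1).mul (h2 2)).sub ((h1 2).mul (h2 1)))).congr_deriv ?_
    simp [crs]
    ring
  · refine ((((h1 2).mul (h2 0)).sub ((h1 0).mul (h2 2)))).congr_deriv ?_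
    simp [crs]
    ring
  · refine ((((h1 0).mul (h2 1)).sub ((h1 1).mul (h2 0)))).congr_deriv ?_
    simp [crs]
    ring

/-- the Levi form of `L` -/
theorem INTM_lev (Φ Ψ : ℂ → E3) (hΦ : DifferentiableOn ℂ Φ (ball 0 1)) (hΨ : DifferentiableOn ℂ Ψ (ball 0 1))
    (z z' : ℂ) (hz : z ∈ ball (0 : ℂ) 1) (hz' : z' ∈ ball (0 : ℂ) 1) (hn : crs (Φ z) (Ψ z') ≠ 0) (α β : ℂ) :
    lev (LL Φ Ψ) (z, z') (α, β) =
      (INTM_ip (fun i => α * crs (crs (Φ z) (Ψ z')) (crs (deriv Φ z) (Ψ z')) i +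
        β * crs (crs (Φ z) (Ψ z')) (crs (Φ z) (deriv Ψ z')) i)
        (fun i => α * crs (crs (Φ z) (Ψ z')) (crs (deriv Φ z) (Ψ z')) i +
        β * crs (crs (Φ z) (Ψ z')) (crs (Φ z) (deriv Ψ z')) i)).re /
        (2 * nq (crs (Φ z) (Ψ z')) ^ 2) := by
  set G : ℂ → E3 := fun t => crs (Φ (z + t * α)) (Ψ (z' + t * β)) with hG
  set Ω : Set ℂ := {t | z + t * α ∈ ball (0 : ℂ) 1 ∧ z' + t * β ∈ ball (0 : ℂ) 1} with hΩ
  have hΩo : IsOpen Ω := by
    have h1 : IsOpen ((fun t : ℂ => z + t * α) ⁻¹' ball (0 : ℂ) 1) :=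
      isOpen_ball.preimage (by fun_prop)
    have h2 : IsOpen ((fun t : ℂ => z' + t * β) ⁻¹' ball (0 : ℂ) 1) :=
      isOpen_ball.preimage (by fun_prop)
    exact h1.inter h2
  have h0Ω : (0 : ℂ) ∈ Ω := by
    constructor
    · rw [zero_mul, add_zero]
      exact hz
    · rw [zero_mul, add_zero]
      exact hz'
  have hGd : ∀ t ∈ Ω, HasDerivAt G (crs (α • deriv Φ (z + t * α)) (Ψ (z' + t * β)) +
      crs (Φ (z + t * α)) (β • deriv Ψ (z' + t * β))) t := by
    intro t ht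
    have a1 : HasDerivAt (fun t : ℂ => z + t * α) α t := by
      have := ((hasDerivAt_id t).mul_const α).const_add z
      simpa using this
    have a2 : HasDerivAt (fun t : ℂ => z' + t * β) β t := by
      have := ((hasDerivAt_id t).mul_const β).const_add z'
      simpa using this
    have b1 : HasDerivAt Φ (deriv Φ (z + t * α)) (z + t * α) :=
      (hΦ.differentiableAt (isOpen_ball.mem_nhds ht.1)).hasDerivAt
    have b2 : HasDerivAt Ψ (deriv Ψ (z' + t * β)) (z' + t * β) :=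
      (hΨ.differentiableAt (isOpen_ball.mem_nhds ht.2)).hasDerivAt
    exact INTM_crs (b1.scomp t a1) (b2.scomp t a2)
  have hGdiff : DifferentiableOn ℂ G Ω := fun t ht => (hGd t ht).differentiableAt.differentiableWithinAt
  have hG0 : G 0 = crs (Φ z) (Ψ z') := by
    rw [hG]
    simp
  have hdG0 : deriv G 0 = crs (α • deriv Φ z) (Ψ z') + crs (Φ z) (β • deriv Ψ z') := by
    rw [(hGd 0 h0Ω).deriv]
    simp
  have key := INTM_lap G Ω hΩo 0 h0Ω hGdiff (by rw [hG0]; exact hn)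
  have e1 : lev (LL Φ Ψ) (z, z') (α, β) = lap (fun t => (1 / 2) * Real.log (nq (G t))) 0 := rfl
  rw [e1, key, hG0, hdG0]
  congr 1
  set n := crs (Φ z) (Ψ z') with hnn
  set m := crs (α • deriv Φ z) (Ψ z') + crs (Φ z) (β • deriv Ψ z') with hm
  have e2 : (fun i => α * crs n (crs (deriv Φ z) (Ψ z')) i + β * crs n (crs (Φ z) (deriv Ψ z')) i) =
      crs n m := by
    rw [hm]
    funext i
    fin_cases i <;> simp [crs] <;> ring
  rw [e2, INTM_binet n m m]
  have e3 : INTM_ip n n * INTM_ip m m - INTM_ip n m * INTM_ip m n =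
      ((nq n * nq m - Complex.normSq (INTM_ip m n) : ℝ) : ℂ) := by
    rw [INTM_ip_self, INTM_ip_self]
    have e4 : INTM_ip n m = (starRingEnd ℂ) (INTM_ip m n) := by
      unfold INTM_ip
      rw [map_sum]
      refine Finset.sum_congr rfl fun i _ => ?_
      rw [map_mul, Complex.conj_conj, mul_comm]
    rw [e4, mul_comm ((starRingEnd ℂ) _), Complex.mul_conj]
    push_cast
    ring
  rw [e3, Complex.ofReal_re]

theorem INTM_exp (a b : E3) (α β : ℂ) :
    (INTM_ip (fun i => α * a i + β * b i) (fun i => α * a i + β * b i)).re =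
      Complex.normSq α * nq a + Complex.normSq β * nq b +
        2 * (α * (starRingEnd ℂ) β * INTM_ip a b).re := by
  simp only [INTM_ip, nq, Fin.sum_univ_three, Complex.normSq_apply]
  simp
  ring

/-- Lagrange identity -/
theorem INTM_lagr (a b : E3) : nq (crs a b) = nq a * nq b - Complex.normSq (INTM_ip b a) := by
  have h := INTM_binet a b b
  have e4 : INTM_ip a b = (starRingEnd ℂ) (INTM_ip b a) := by
    unfold INTM_ip
    rw [map_sum]
    refine Finset.sum_congr rfl fun i _ => ?_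
    rw [map_mul, Complex.conj_conj, mul_comm]
  rw [INTM_ip_self, INTM_ip_self, INTM_ip_self, e4, mul_comm ((starRingEnd ℂ) _), Complex.mul_conj] at h
  exact_mod_cast h

theorem INTM_nq_nonneg {m : ℕ} (v : Fin m → ℂ) : 0 ≤ nq v :=
  Finset.sum_nonneg fun _ _ => Complex.normSq_nonneg _

theorem INTM_nq_pos {m : ℕ} (v : Fin m → ℂ) (hv : v ≠ 0) : 0 < nq v := by
  have h1 : ∃ i, v i ≠ 0 := by
    by_contra hcon
    push Not at hcon
    exact hv (funext hcon)
  obtain ⟨i, hi⟩ := h1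
  exact lt_of_lt_of_le (Complex.normSq_pos.2 hi) (Finset.single_le_sum (f := fun i => Complex.normSq (v i))
    (fun i _ => Complex.normSq_nonneg _) (Finset.mem_univ i))

theorem INTM_nq_smul (c : ℂ) (v : E3) : nq (fun i => c * v i) = Complex.normSq c * nq v := by
  unfold nq
  rw [Finset.mul_sum]
  exact Finset.sum_congr rfl fun i _ => Complex.normSq_mul _ _

theorem INTM_ip_smul (c d : ℂ) (v w : E3) :
    INTM_ip (fun i => c * v i) (fun i => d * w i) = c * (starRingEnd ℂ) d * INTM_ip v w := by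
  unfold INTM_ip
  rw [Finset.mul_sum]
  refine Finset.sum_congr rfl fun i _ => ?_
  rw [map_mul]
  ring

theorem INTM : INTM_stmt := by
  intro Φ Ψ hΦ hΨ z hz z' hz' hn
  have hlev := INTM_lev Φ Ψ hΦ hΨ z z' hz hz' hn
  set n := crs (Φ z) (Ψ z') with hnn
  set δ := n ⬝ᵥ deriv Φ z with hδ
  set δ' := n ⬝ᵥ deriv Ψ z' with hδ'
  have ha : crs n (crs (deriv Φ z) (Ψ z')) = fun i => -δ * Ψ z' i := INTM_quad (Φ z) (Ψ z') (deriv Φ z)
  have hb : crs n (crs (Φ z) (deriv Ψ z')) = fun i => δ' * Φ z i := INTM_quad2 (Φ z) (Ψ z') (deriv Ψ z')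
  set a := crs n (crs (deriv Φ z) (Ψ z')) with haa
  set b := crs n (crs (Φ z) (deriv Ψ z')) with hbb
  have hnqa : nq a = Complex.normSq δ * nq (Ψ z') := by
    rw [ha, INTM_nq_smul, Complex.normSq_neg]
  have hnqb : nq b = Complex.normSq δ' * nq (Φ z) := by
    rw [hb, INTM_nq_smul]
  have hab : Complex.normSq (INTM_ip a b) =
      Complex.normSq δ * Complex.normSq δ' * Complex.normSq (INTM_ip (Ψ z') (Φ z)) := by
    rw [ha, hb, INTM_ip_smul, Complex.normSq_mul, Complex.normSq_mul, Complex.normSq_neg, Complex.normSq_conj]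
  have hlag : nq n = nq (Φ z) * nq (Ψ z') - Complex.normSq (INTM_ip (Ψ z') (Φ z)) := INTM_lagr _ _
  have hnpos : 0 < nq n := INTM_nq_pos n hn
  have hK : 0 < 2 * nq n ^ 2 := by positivity
  have h10 : lev (LL Φ Ψ) (z, z') (1, 0) = nq a / (2 * nq n ^ 2) := by
    rw [hlev, INTM_exp]
    simp
  have h01 : lev (LL Φ Ψ) (z, z') (0, 1) = nq b / (2 * nq n ^ 2) := by
    rw [hlev, INTM_exp]
    simp
  have h11 : lev (LL Φ Ψ) (z, z') (1, 1) = (nq a + nq b + 2 * (INTM_ip a b).re) / (2 * nq n ^ 2) := by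
    rw [hlev, INTM_exp]
    simp
  have h1I : lev (LL Φ Ψ) (z, z') (1, Complex.I) = (nq a + nq b + 2 * (INTM_ip a b).im) / (2 * nq n ^ 2) := by
    rw [hlev, INTM_exp]
    simp
  have hre : lre (LL Φ Ψ) (z, z') = (INTM_ip a b).re / (2 * nq n ^ 2) := by
    rw [lre, h10, h01, h11]
    ring
  have him : lim (LL Φ Ψ) (z, z') = (INTM_ip a b).im / (2 * nq n ^ 2) := by
    rw [lim, h10, h01, h1I]
    ring
  have hsq : lre (LL Φ Ψ) (z, z') ^ 2 + lim (LL Φ Ψ) (z, z') ^ 2 =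
      Complex.normSq (INTM_ip a b) / (2 * nq n ^ 2) ^ 2 := by
    rw [hre, him, Complex.normSq_apply]
    ring
  refine ⟨?_, ?_, ?_, ?_, ?_⟩
  · have h1 : MA (LL Φ Ψ) (LL Φ Ψ) (z, z') = 2 * (lev (LL Φ Ψ) (z, z') (1, 0) * lev (LL Φ Ψ) (z, z') (0, 1)) -
        2 * (lre (LL Φ Ψ) (z, z') ^ 2 + lim (LL Φ Ψ) (z, z') ^ 2) := by
      rw [MA]
      ring
    rw [h1, hsq, h10, h01, hab, hnqa, hnqb]
    have h2 : nq n ≠ 0 := hnpos.ne'
    rw [eq_div_iff (by positivity)]
    have h3 : Complex.normSq (INTM_ip (Ψ z') (Φ z)) = nq (Φ z) * nq (Ψ z') - nq n := by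
      rw [hlag]
      ring
    rw [h3]
    field_simp
    ring
  · have hΦ0 : Φ z ≠ 0 := by
      intro h0
      apply hn
      rw [hnn, h0]
      funext i
      fin_cases i <;> simp [crs]
    rw [INTM_lap Φ (ball 0 1) isOpen_ball z hz hΦ hΦ0, INTM_lagr]
  · rw [h10]
    exact div_nonneg (INTM_nq_nonneg _) hK.le
  · rw [h01]
    exact div_nonneg (INTM_nq_nonneg _) hK.le
  · rw [hsq, h10, h01, div_mul_div_comm, sq (2 * nq n ^ 2)]
    refine div_le_div_of_nonneg_right ?_ (by positivity)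
    rw [hab, hnqa, hnqb]
    have h4 : Complex.normSq (INTM_ip (Ψ z') (Φ z)) ≤ nq (Φ z) * nq (Ψ z') := by
      rw [hlag] at hnpos
      linarith
    calc Complex.normSq δ * Complex.normSq δ' * Complex.normSq (INTM_ip (Ψ z') (Φ z)) ≤
          Complex.normSq δ * Complex.normSq δ' * (nq (Φ z) * nq (Ψ z')) :=
          mul_le_mul_of_nonneg_left h4 (mul_nonneg (Complex.normSq_nonneg _) (Complex.normSq_nonneg _))
      _ = _ := by ring

end Pool.Agent.P2
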