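import Pool.Agent.helper72.P2.UR1E

/-!
Row p2:UR1 (MP_063734_an): the energy inequality without regularisation.
-/

set_option autoImplicit false

namespace Pool.Agent.P2U

open MeasureTheory Set Filter Topology Metric Complex
open scoped ENNReal ContDiff

theorem UR1_quot (N G c e : ℝ) (hG : 0 ≤ G) (hc : 0 ≤ c) (he : 0 < e) (hN : N ≤ G * c) :
    e * N / (c + e) ^ 2 ≤ G / 4 := by
  have h1 : 0 < (c + e) ^ 2 := by positivity
  rw [div_le_div_iff₀ h1 (by norm_num : (0 : ℝ) < 4)]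
  have h2 : e * N ≤ e * (G * c) := mul_le_mul_of_nonneg_left hN he.le
  have h3 : 0 ≤ G * (c - e) ^ 2 := by positivity
  nlinarith

theorem UR1_lim (N c : ℝ) (h : c ≠ 0) :
    Tendsto (fun k : ℕ => (1 / ((k : ℝ) + 1)) * N / (c + 1 / ((k : ℝ) + 1)) ^ 2) atTop (𝓝 0) := by
  have h0 : Tendsto (fun k : ℕ => 1 / ((k : ℝ) + 1)) atTop (𝓝 0) := tendsto_one_div_add_atTop_nhds_zero_nat
  have h1 := (h0.mul_const N).div ((h0.const_add c).pow 2) (by rw [add_zero]; exact pow_ne_zero 2 h)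
  rwa [zero_mul, zero_div] at h1

theorem UR1_lim2 (M c : ℝ) (h : c ≠ 0) :
    Tendsto (fun k : ℕ => M / (c + 1 / ((k : ℝ) + 1)) ^ 2) atTop (𝓝 (M / c ^ 2)) := by
  have h0 : Tendsto (fun k : ℕ => 1 / ((k : ℝ) + 1)) atTop (𝓝 0) := tendsto_one_div_add_atTop_nhds_zero_nat
  have h1 := (tendsto_const_nhds (x := M)).div ((h0.const_add c).pow 2)
    (by rw [add_zero]; exact pow_ne_zero 2 h)
  rwa [add_zero] at h1

theorem UR1 (hR1F : UR1F_stmt) (hTST : UTST_stmt) : UR1_stmt := by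
  intro C0 α hC0 hα hα1
  obtain ⟨C, hC, hR⟩ := hR1F C0 α hC0 hα hα1
  refine ⟨C, hC, ?_⟩
  intro P Q u D τ hDat hτ1 s t hs hst ht htτ hsD E0 P0 hE0 hP0 hG hPP
  have hR' := hR P Q u D τ hDat hτ1 s t hs hst ht htτ hsD P0 hP0 hPP
  have ht4 : t ≤ 1 / 4 := by linarith
  obtain ⟨hBc, -, -, hB01, hB8, hBout, -⟩ := hTST s t hs hst ht ht4
  obtain ⟨hX, hV, hef, hnn, hX', hV', hom, hom0⟩ := UR1E_reg hDat.hol
  have hD : 0 < D := lt_of_lt_of_le (by positivity) hsD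
  have hs40 : (0 : ℝ) < s ^ 4 := by positivity
  set X := cx P Q with hXdef
  set V := cv P Q with hVdef
  set B := BB s t with hBdef
  set W := P0 / Real.log (t / s) + C * t ^ (α / 2) with hW
  have hUo := UR1E_open 4 τ
  set K : Set (ℂ × ℂ) := closedBall (0 : ℂ) 2 ×ˢ closedBall (0 : ℂ) t with hK
  have hKc : IsCompact K := (isCompact_closedBall 0 2).prod (isCompact_closedBall 0 t)
  have hKU : K ⊆ TB 4 τ := by
    rintro p ⟨h1, h2⟩
    rw [mem_closedBall_zero_iff] at h1 h2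
    exact ⟨by linarith, by linarith⟩
  have hKT : ∀ p ∉ K, p ∉ TB 2 t := by
    intro p hp h
    exact hp ⟨mem_closedBall_zero_iff.2 h.1.le, mem_closedBall_zero_iff.2 h.2.le⟩
  have hBcont : ContinuousOn B (TB 4 τ) := hBc.continuous.continuousOn
  have hcc0 : ∀ p, 0 ≤ ‖X p‖ ^ 2 + ‖V p‖ ^ 2 := fun p => by positivity
  have hden : ∀ e : ℝ, 0 < e → ContinuousOn (fun p => (‖X p‖ ^ 2 + ‖V p‖ ^ 2 + e) ^ 2)
      (TB 4 τ) := fun e _ =>
    (((hX.continuousOn.norm.pow 2).add (hV.continuousOn.norm.pow 2)).add continuousOn_const).pow 2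
  have hdens : ∀ e : ℝ, 0 < e → ContinuousOn (fun p => (‖X p‖ ^ 2 + s ^ 4 * ‖V p‖ ^ 2 + e) ^ 2)
      (TB 4 τ) := fun e _ =>
    (((hX.continuousOn.norm.pow 2).add (continuousOn_const.mul (hV.continuousOn.norm.pow 2))).add
      continuousOn_const).pow 2
  have hden0 : ∀ e : ℝ, 0 < e → ∀ p, (‖X p‖ ^ 2 + ‖V p‖ ^ 2 + e) ^ 2 ≠ 0 := fun e he p => by
    positivity
  have hdens0 : ∀ e : ℝ, 0 < e → ∀ p, (‖X p‖ ^ 2 + s ^ 4 * ‖V p‖ ^ 2 + e) ^ 2 ≠ 0 :=
    fun e he p => by positivity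
  -- the functions
  set Nf : ℂ × ℂ → ℝ := fun p => ‖fderiv ℂ X p (ef P Q p)‖ ^ 2 + ‖fderiv ℂ V p (ef P Q p)‖ ^ 2 with hNf
  set Gf : ℂ × ℂ → ℝ := fun p => ‖fderiv ℂ X p‖ ^ 2 + ‖fderiv ℂ V p‖ ^ 2 with hGf
  have hNc : ContinuousOn Nf (TB 4 τ) := (hX'.norm.pow 2).add (hV'.norm.pow 2)
  have hGc : ContinuousOn Gf (TB 4 τ) :=
    (hX.fderiv.continuousOn.norm.pow 2).add (hV.fderiv.continuousOn.norm.pow 2)
  have hN0 : ∀ p, 0 ≤ Nf p := fun p => by positivity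
  have hG0 : ∀ p, 0 ≤ Gf p := fun p => by positivity
  have hefn : ∀ p, ‖ef P Q p‖ ^ 2 ≤ ‖X p‖ ^ 2 + ‖V p‖ ^ 2 := by
    intro p
    have h1 : ‖ef P Q p‖ = max ‖V p‖ ‖X p‖ := by
      have : ef P Q p = (V p, - X p) := rfl
      rw [this, Prod.norm_def, norm_neg]
    rw [h1]
    rcases max_cases ‖V p‖ ‖X p‖ with h | h
    · rw [h.1]; nlinarith [sq_nonneg ‖X p‖]
    · rw [h.1]; nlinarith [sq_nonneg ‖V p‖]
  have hNG : ∀ p, Nf p ≤ Gf p * (‖X p‖ ^ 2 + ‖V p‖ ^ 2) := by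
    intro p
    have h1 : ‖fderiv ℂ X p (ef P Q p)‖ ^ 2 ≤ ‖fderiv ℂ X p‖ ^ 2 * ‖ef P Q p‖ ^ 2 := by
      rw [← mul_pow]
      exact pow_le_pow_left₀ (norm_nonneg _) ((fderiv ℂ X p).le_opNorm _) 2
    have h2 : ‖fderiv ℂ V p (ef P Q p)‖ ^ 2 ≤ ‖fderiv ℂ V p‖ ^ 2 * ‖ef P Q p‖ ^ 2 := by
      rw [← mul_pow]
      exact pow_le_pow_left₀ (norm_nonneg _) ((fderiv ℂ V p).le_opNorm _) 2
    have h3 : Nf p ≤ Gf p * ‖ef P Q p‖ ^ 2 := by
      change ‖fderiv ℂ X p (ef P Q p)‖ ^ 2 + ‖fderiv ℂ V p (ef P Q p)‖ ^ 2 ≤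
        (‖fderiv ℂ X p‖ ^ 2 + ‖fderiv ℂ V p‖ ^ 2) * ‖ef P Q p‖ ^ 2
      rw [add_mul]
      exact add_le_add h1 h2
    exact h3.trans (mul_le_mul_of_nonneg_left (hefn p) (hG0 p))
  set ep : ℕ → ℝ := fun k => 1 / ((k : ℝ) + 1) with hep
  have hep0 : ∀ k, 0 < ep k := fun k => by
    change 0 < 1 / ((k : ℝ) + 1)
    positivity
  set Lk : ℕ → ℂ × ℂ → ℝ := fun k p => B p * (s ^ 4 * ‖nn P Q p‖ ^ 2 /
    (‖X p‖ ^ 2 + s ^ 4 * ‖V p‖ ^ 2 + ep k) ^ 2) * om P Q p with hLk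
  set Ak : ℕ → ℂ × ℂ → ℝ := fun k p => B p * (‖nn P Q p‖ ^ 2 /
    (‖X p‖ ^ 2 + ‖V p‖ ^ 2 + ep k) ^ 2) * om P Q p with hAk
  set Ek : ℕ → ℂ × ℂ → ℝ := fun k p => B p * (ep k * Nf p /
    (‖X p‖ ^ 2 + ‖V p‖ ^ 2 + ep k) ^ 2) * om P Q p with hEk
  have hLi : ∀ k, Integrable (Lk k) := by
    intro k
    refine UR1E_int hUo ?_ hKc hKU fun p hp => by
      change B p * _ * _ = 0
      rw [(hBout p (hKT p hp)).1, zero_mul, zero_mul]
    exact (hBcont.mul ((continuousOn_const.mul (hnn.norm.pow 2)).div (hdens _ (hep0 k))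
      fun p _ => hdens0 _ (hep0 k) p)).mul hom
  have hAi : ∀ k, Integrable (Ak k) := by
    intro k
    refine UR1E_int hUo ?_ hKc hKU fun p hp => by
      change B p * _ * _ = 0
      rw [(hBout p (hKT p hp)).1, zero_mul, zero_mul]
    exact (hBcont.mul ((hnn.norm.pow 2).div (hden _ (hep0 k))
      fun p _ => hden0 _ (hep0 k) p)).mul hom
  have hEi : ∀ k, Integrable (Ek k) := by
    intro k
    refine UR1E_int hUo ?_ hKc hKU fun p hp => by
      change B p * _ * _ = 0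
      rw [(hBout p (hKT p hp)).1, zero_mul, zero_mul]
    exact (hBcont.mul ((continuousOn_const.mul hNc).div (hden _ (hep0 k))
      fun p _ => hden0 _ (hep0 k) p)).mul hom
  have hGi : Integrable (fun p => B p * (Gf p / 4) * om P Q p) := by
    refine UR1E_int hUo ?_ hKc hKU fun p hp => by
      rw [(hBout p (hKT p hp)).1, zero_mul, zero_mul]
    exact (hBcont.mul (hGc.div_const 4)).mul hom
  -- the main inequality
  have hmain : ∀ k, ∫ p, Lk k p ≤ ((∫ p, Ak k p) + ∫ p, Ek k p) + D * W := by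
    intro k
    have h1 := hR' (ep k) (hep0 k)
    rw [← integral_add (hAi k) (hEi k)]
    refine h1.trans (le_of_eq ?_)
    congr 1
    refine integral_congr_ae (Eventually.of_forall fun p => ?_)
    change B p * ((‖nn P Q p‖ ^ 2 + ep k * Nf p) / (‖X p‖ ^ 2 + ‖V p‖ ^ 2 + ep k) ^ 2) * om P Q p =
      B p * (‖nn P Q p‖ ^ 2 / (‖X p‖ ^ 2 + ‖V p‖ ^ 2 + ep k) ^ 2) * om P Q p +
      B p * (ep k * Nf p / (‖X p‖ ^ 2 + ‖V p‖ ^ 2 + ep k) ^ 2) * om P Q p
    rw [add_div]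
    ring
  -- the Gauss part
  have hA : ∀ k, ∫ p, Ak k p ≤ D * E0 := by
    intro k
    refine UR1E_le_toReal (by positivity) (le_trans ?_ hG)
    rw [← lintegral_indicator (UR1E_open 2 t).measurableSet]
    refine lintegral_mono fun p => ?_
    by_cases hp : p ∈ TB 2 t
    · rw [indicator_of_mem hp]
      refine ENNReal.ofReal_le_ofReal ?_
      refine mul_le_mul_of_nonneg_right ?_ (hom0 p)
      have h1 : ‖nn P Q p‖ ^ 2 / (‖X p‖ ^ 2 + ‖V p‖ ^ 2 + ep k) ^ 2 ≤ Gd P Q p := by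
        change _ ≤ ‖nn P Q p‖ ^ 2 / (‖X p‖ ^ 2 + ‖V p‖ ^ 2) ^ 2
        rcases eq_or_lt_of_le (hcc0 p) with h0 | h0
        · have hx0 : X p = 0 := by
            have := sq_nonneg ‖X p‖
            have := sq_nonneg ‖V p‖
            have h2 : ‖X p‖ ^ 2 = 0 := by linarith
            exact norm_eq_zero.1 (pow_eq_zero_iff (two_ne_zero)|>.1 h2)
          have hv0 : V p = 0 := by
            have := sq_nonneg ‖X p‖
            have := sq_nonneg ‖V p‖
            have h2 : ‖V p‖ ^ 2 = 0 := by linarith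
            exact norm_eq_zero.1 (pow_eq_zero_iff (two_ne_zero)|>.1 h2)
          have hn0 : nn P Q p = 0 := by
            change X p * _ - V p * _ = 0
            rw [hx0, hv0, zero_mul, zero_mul, sub_zero]
          rw [hn0]
          simp
        · refine div_le_div_of_nonneg_left (by positivity) (by positivity) ?_
          exact pow_le_pow_left₀ h0.le (by linarith [hep0 k]) 2
      have h2 : 0 ≤ ‖nn P Q p‖ ^ 2 / (‖X p‖ ^ 2 + ‖V p‖ ^ 2 + ep k) ^ 2 := by positivity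
      calc B p * (‖nn P Q p‖ ^ 2 / (‖X p‖ ^ 2 + ‖V p‖ ^ 2 + ep k) ^ 2)
          ≤ 1 * (‖nn P Q p‖ ^ 2 / (‖X p‖ ^ 2 + ‖V p‖ ^ 2 + ep k) ^ 2) :=
            mul_le_mul_of_nonneg_right (hB01 p).2 h2
        _ ≤ Gd P Q p := by rw [one_mul]; exact h1
    · rw [indicator_of_notMem hp]
      change ENNReal.ofReal (B p * _ * _) ≤ 0
      rw [(hBout p hp).1, zero_mul, zero_mul, ENNReal.ofReal_zero]
  -- the error
  have hzero : ∀ p, ‖X p‖ ^ 2 + ‖V p‖ ^ 2 = 0 → X p = 0 ∧ V p = 0 := by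
    intro p h0
    have h3 := sq_nonneg ‖X p‖
    have h4 := sq_nonneg ‖V p‖
    have h1 : ‖X p‖ ^ 2 = 0 := by linarith
    have h2 : ‖V p‖ ^ 2 = 0 := by linarith
    exact ⟨norm_eq_zero.1 ((pow_eq_zero_iff two_ne_zero).1 h1),
      norm_eq_zero.1 ((pow_eq_zero_iff two_ne_zero).1 h2)⟩
  have hE : Tendsto (fun k => ∫ p, Ek k p) atTop (𝓝 0) := by
    have h1 : Tendsto (fun k => ∫ p, Ek k p) atTop (𝓝 (∫ _ : ℂ × ℂ, (0 : ℝ))) := by
      refine tendsto_integral_of_dominated_convergence (fun p => B p * (Gf p / 4) * om P Q p)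
        (fun k => (hEi k).aestronglyMeasurable) hGi (fun k => Eventually.of_forall fun p => ?_)
        (Eventually.of_forall fun p => ?_)
      · have h2 : 0 ≤ Ek k p := by
          have h5 := (hB01 p).1
          have h6 := hom0 p
          have h7 := hN0 p
          have h8 := (hep0 k).le
          change 0 ≤ B p * (ep k * Nf p / (‖X p‖ ^ 2 + ‖V p‖ ^ 2 + ep k) ^ 2) * om P Q p
          positivity
        rw [Real.norm_of_nonneg h2]
        exact mul_le_mul_of_nonneg_right (mul_le_mul_of_nonneg_left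
          (UR1_quot _ _ _ _ (hG0 p) (hcc0 p) (hep0 k) (hNG p)) (hB01 p).1) (hom0 p)
      · by_cases h0 : ‖X p‖ ^ 2 + ‖V p‖ ^ 2 = 0
        · have h2 : Nf p = 0 := by
            have := hNG p
            rw [h0, mul_zero] at this
            exact le_antisymm this (hN0 p)
          have h3 : ∀ k, Ek k p = 0 := fun k => by
            change B p * (ep k * Nf p / _) * _ = 0
            rw [h2, mul_zero, zero_div, mul_zero, zero_mul]
          simp only [h3]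
          exact tendsto_const_nhds
        · have h2 := ((UR1_lim (Nf p) _ h0).const_mul (B p)).mul_const (om P Q p)
          rw [mul_zero, zero_mul] at h2
          exact h2
    rwa [integral_zero] at h1
  -- Fatou
  have hpt : ∀ p ∈ TB 1 s, ENNReal.ofReal (Fd P Q (s ^ 2) p * om P Q p) ≤
      liminf (fun k => ENNReal.ofReal (8 * Lk k p)) atTop := by
    intro p hp
    by_cases h0 : ‖X p‖ ^ 2 + s ^ 4 * ‖V p‖ ^ 2 = 0
    · have h3 := sq_nonneg ‖X p‖
      have h4 : 0 ≤ s ^ 4 * ‖V p‖ ^ 2 := by positivity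
      have h1 : ‖X p‖ ^ 2 = 0 := by linarith
      have h2 : s ^ 4 * ‖V p‖ ^ 2 = 0 := by linarith
      have h5 : ‖V p‖ ^ 2 = 0 := by
        rcases mul_eq_zero.1 h2 with h | h
        · exact absurd h hs40.ne'
        · exact h
      obtain ⟨hx0, hv0⟩ := hzero p (by rw [h1, h5, add_zero])
      have hn0 : nn P Q p = 0 := by
        change X p * _ - V p * _ = 0
        rw [hx0, hv0, zero_mul, zero_mul, sub_zero]
      have hF0 : Fd P Q (s ^ 2) p = 0 := by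
        change (s ^ 2) ^ 2 * ‖nn P Q p‖ ^ 2 / _ = 0
        rw [hn0]
        simp
      rw [hF0, zero_mul, ENNReal.ofReal_zero]
      exact zero_le
    · have h1 : Tendsto (fun k => 8 * Lk k p) atTop (𝓝 (8 * (B p * (s ^ 4 * ‖nn P Q p‖ ^ 2 /
          (‖X p‖ ^ 2 + s ^ 4 * ‖V p‖ ^ 2) ^ 2) * om P Q p))) :=
        (((UR1_lim2 _ _ h0).const_mul (B p)).mul_const (om P Q p)).const_mul 8
      have h2 := (ENNReal.continuous_ofReal.tendsto _).comp h1
      have h3 : liminf (fun k => ENNReal.ofReal (8 * Lk k p)) atTop = _ := h2.liminf_eq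
      rw [h3]
      refine ENNReal.ofReal_le_ofReal ?_
      have h4 : Fd P Q (s ^ 2) p = s ^ 4 * ‖nn P Q p‖ ^ 2 /
          (‖X p‖ ^ 2 + s ^ 4 * ‖V p‖ ^ 2) ^ 2 := by
        change (s ^ 2) ^ 2 * ‖nn P Q p‖ ^ 2 / (‖X p‖ ^ 2 + (s ^ 2) ^ 2 * ‖V p‖ ^ 2) ^ 2 = _
        rw [← pow_mul]
      rw [← h4]
      have h5 : 0 ≤ Fd P Q (s ^ 2) p * om P Q p := by
        have h6 := hom0 p
        rw [h4]
        positivity
      have h7 := hB8 p hp
      calc Fd P Q (s ^ 2) p * om P Q p = 1 * (Fd P Q (s ^ 2) p * om P Q p) := by rw [one_mul]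
        _ ≤ (8 * B p) * (Fd P Q (s ^ 2) p * om P Q p) :=
          mul_le_mul_of_nonneg_right (by linarith) h5
        _ = 8 * (B p * Fd P Q (s ^ 2) p * om P Q p) := by ring
  have hkey : ∀ k, ∫⁻ p in TB 1 s, ENNReal.ofReal (8 * Lk k p) ≤
      ENNReal.ofReal (8 * ((D * E0 + ∫ p, Ek k p) + D * W)) := by
    intro k
    have h0 : ∀ p, 0 ≤ 8 * Lk k p := fun p => by
      have h5 := (hB01 p).1
      have h6 := hom0 p
      change 0 ≤ 8 * (B p * (s ^ 4 * ‖nn P Q p‖ ^ 2 /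
        (‖X p‖ ^ 2 + s ^ 4 * ‖V p‖ ^ 2 + ep k) ^ 2) * om P Q p)
      positivity
    calc ∫⁻ p in TB 1 s, ENNReal.ofReal (8 * Lk k p) ≤ ∫⁻ p, ENNReal.ofReal (8 * Lk k p) :=
          setLIntegral_le_lintegral _ _
      _ = ENNReal.ofReal (∫ p, 8 * Lk k p) :=
          (ofReal_integral_eq_lintegral_ofReal ((hLi k).const_mul 8)
            (Eventually.of_forall h0)).symm
      _ = ENNReal.ofReal (8 * ∫ p, Lk k p) := by rw [integral_const_mul]
      _ ≤ _ := by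
          refine ENNReal.ofReal_le_ofReal ?_
          have := hmain k
          have := hA k
          linarith
  have hlast : Tendsto (fun k => ENNReal.ofReal (8 * ((D * E0 + ∫ p, Ek k p) + D * W))) atTop
      (𝓝 (ENNReal.ofReal (8 * ((D * E0 + 0) + D * W)))) :=
    (ENNReal.continuous_ofReal.tendsto _).comp
      (((hE.const_add (D * E0)).add_const (D * W)).const_mul 8)
  calc ∫⁻ p in TB 1 s, ENNReal.ofReal (Fd P Q (s ^ 2) p * om P Q p)
      ≤ ∫⁻ p in TB 1 s, liminf (fun k => ENNReal.ofReal (8 * Lk k p)) atTop :=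
        setLIntegral_mono' (UR1E_open 1 s).measurableSet hpt
    _ ≤ liminf (fun k => ∫⁻ p in TB 1 s, ENNReal.ofReal (8 * Lk k p)) atTop :=
        lintegral_liminf_le' fun k =>
          (((hLi k).const_mul 8).aestronglyMeasurable.aemeasurable.ennreal_ofReal).restrict
    _ ≤ liminf (fun k => ENNReal.ofReal (8 * ((D * E0 + ∫ p, Ek k p) + D * W))) atTop :=
        liminf_le_liminf (Eventually.of_forall hkey)
    _ = ENNReal.ofReal (8 * ((D * E0 + 0) + D * W)) := hlast.liminf_eq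
    _ = ENNReal.ofReal (8 * (D * (E0 + P0 / Real.log (t / s) + C * t ^ (α / 2)))) := by
        congr 1
        rw [hW]
        ring

end Pool.Agent.P2U
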