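import Pool.Agent.helper37.P2.SpecD

/-!
Row p2:BK1 (MP_063734_an): bookkeeping of masses, bad points of the islands.
-/

set_option autoImplicit false

open scoped ContDiff Topology
open MeasureTheory Filter Set Metric MvPolynomial Pool.Agent.helper37.QA

namespace Pool.Agent.P2

theorem BK1_eta (z : ℂ) : 0 ≤ eta z ∧ eta z ≤ 1 :=
  ⟨Real.smoothTransition.nonneg _, Real.smoothTransition.le_one _⟩

theorem BK1_cont : Continuous eta := by
  unfold eta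
  exact Real.smoothTransition.continuous.comp (by fun_prop)

theorem BK1_tau {d : ℕ} (f : Endo 2 d) (N : ℕ) (Z : ℂ → E3) (z : ℂ) : 0 ≤ tau f N Z z := by
  unfold tau
  have := Complex.normSq_nonneg (It f N (Z z) 1 * deriv (fun z => It f N (Z z) 0) z -
    It f N (Z z) 0 * deriv (fun z => It f N (Z z) 1) z)
  positivity

theorem BK1_one {d : ℕ} (f : Endo 2 d) (N k : ℕ) (Z : ℂ → E3) (m εT : ℝ) (g : ℂ → ℂ) (S : Set ℂ)
    (h : ℂ → ℝ) (hm : 0 < m) (hd : 2 ≤ d)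
    (h1 : ∫⁻ z in g '' S, ENNReal.ofReal (tau f N Z z) =
      ∫⁻ ξ in S, ENNReal.ofReal (h ξ / (d : ℝ) ^ k))
    (h2 : ∫⁻ ξ in S, ENNReal.ofReal (h ξ) ≤ ENNReal.ofReal εT) :
    ∫⁻ z in g '' S, ENNReal.ofReal (eta z ^ 2 * tau f N Z z / m) ≤
      ENNReal.ofReal (((d : ℝ) ^ k * m)⁻¹) * ENNReal.ofReal εT := by
  have hdk : 0 < (d : ℝ) ^ k := by
    have : (0 : ℝ) < d := by exact_mod_cast (by omega : 0 < d)
    positivity
  have e1 : ∀ z, ENNReal.ofReal (eta z ^ 2 * tau f N Z z / m) ≤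
      ENNReal.ofReal m⁻¹ * ENNReal.ofReal (tau f N Z z) := by
    intro z
    rw [← ENNReal.ofReal_mul (inv_nonneg.2 hm.le)]
    refine ENNReal.ofReal_le_ofReal ?_
    have h3 := BK1_tau f N Z z
    have h4 : eta z ^ 2 ≤ 1 := pow_le_one₀ (BK1_eta z).1 (BK1_eta z).2
    rw [div_eq_inv_mul]
    refine mul_le_mul_of_nonneg_left ?_ (inv_nonneg.2 hm.le)
    nlinarith
  calc ∫⁻ z in g '' S, ENNReal.ofReal (eta z ^ 2 * tau f N Z z / m)
      ≤ ∫⁻ z in g '' S, ENNReal.ofReal m⁻¹ * ENNReal.ofReal (tau f N Z z) :=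
        lintegral_mono e1
    _ = ENNReal.ofReal m⁻¹ * ∫⁻ z in g '' S, ENNReal.ofReal (tau f N Z z) :=
        lintegral_const_mul' _ _ ENNReal.ofReal_ne_top
    _ = ENNReal.ofReal m⁻¹ * ∫⁻ ξ in S, ENNReal.ofReal (h ξ / (d : ℝ) ^ k) := by rw [h1]
    _ = ENNReal.ofReal m⁻¹ * ∫⁻ ξ in S, ENNReal.ofReal ((d : ℝ) ^ k)⁻¹ * ENNReal.ofReal (h ξ) := by
        congr 1
        refine lintegral_congr fun ξ => ?_
        rw [← ENNReal.ofReal_mul (inv_nonneg.2 hdk.le), div_eq_inv_mul]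
    _ = ENNReal.ofReal m⁻¹ * (ENNReal.ofReal ((d : ℝ) ^ k)⁻¹ * ∫⁻ ξ in S, ENNReal.ofReal (h ξ)) := by
        rw [lintegral_const_mul' _ _ ENNReal.ofReal_ne_top]
    _ = ENNReal.ofReal (((d : ℝ) ^ k * m)⁻¹) * ∫⁻ ξ in S, ENNReal.ofReal (h ξ) := by
        rw [← mul_assoc, ← ENNReal.ofReal_mul (inv_nonneg.2 hm.le), mul_inv, mul_comm m⁻¹]
    _ ≤ _ := mul_le_mul_right h2 _

theorem BK1 (hISM : ISM_stmt) (hFAM : FAM_stmt) : BK1_stmt := by
  intro d f U hd hU κ Kb hκ hκ1 hKb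
  obtain ⟨C, hC, hF⟩ := hFAM d f U hd hU κ Kb hκ hκ1 hKb
  obtain ⟨C', hC', hI⟩ := hISM d f U hd hU
  refine ⟨C, hC, ?_⟩
  intro N k Z ι c hSD R εT hεT hBad
  obtain ⟨n, A, hA⟩ := hF N k Z ι c hSD
  have hm : 0 < mass f N Z := lt_of_lt_of_le one_pos hSD.m1
  have hNI : ∀ a, NI f Z k ι c κ (A a).g (A a).γ := fun a => (hA.isl a).2.2
  choose B hB1 hB2 hB3 using fun a => hBad (A a).g (A a).γ (hNI a)
  set S : Fin n → Set ℂ := fun a => B a ∩ closedBall 0 (1 / 32) with hS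
  have hSm : ∀ a, MeasurableSet (S a) := fun a => (hB1 a).inter isClosed_closedBall.measurableSet
  have hSb : ∀ a, S a ⊆ ball 0 1 := fun a =>
    inter_subset_right.trans (closedBall_subset_ball (by norm_num))
  have hdk : 0 < (d : ℝ) ^ k := by
    have : (0 : ℝ) < d := by exact_mod_cast (by omega : 0 < d)
    positivity
  set F : ℂ → ENNReal := fun z => ENNReal.ofReal (eta z ^ 2 * tau f N Z z / mass f N Z) with hFd
  have h1 : Pt f Z k ι c κ R ⊆ {z | eta z = 0} ∪ ⋃ a, (A a).g '' S a := by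
    rintro z ⟨g, γ, ξ, hg, hξ, hz, hR⟩
    by_cases h0 : eta z = 0
    · exact Or.inl h0
    · refine Or.inr ?_
      have hξ' : ξ ∈ closedBall (0 : ℂ) (1 / 32) := mem_closedBall_zero_iff.2 hξ
      obtain ⟨a, ha1, ha2⟩ := hA.all g γ hg ⟨ξ, hξ', by rw [hz]; exact h0⟩
      rw [ha2] at hR
      refine mem_iUnion.2 ⟨a, ξ, ⟨hB2 a ξ hξ hR, hξ'⟩, ?_⟩
      rw [← ha1]
      exact hz
  have h2 : ∫⁻ z in {z | eta z = 0}, F z = 0 := by
    have hms : MeasurableSet {z | eta z = 0} := (isClosed_eq BK1_cont continuous_const).measurableSet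
    rw [setLIntegral_congr_fun hms (g := fun _ => 0), lintegral_zero]
    intro z hz
    have hz' : eta z = 0 := hz
    simp only [hFd, hz']
    norm_num
  have h3 : ∀ a, ∫⁻ z in (A a).g '' S a, F z ≤
      ENNReal.ofReal (((d : ℝ) ^ k * mass f N Z)⁻¹) * ENNReal.ofReal εT := fun a =>
    BK1_one f N k Z (mass f N Z) εT (A a).g (S a) (fun ξ => gt f (N - k) ι c κ (A a).γ (ξ, 0)) hm hd
      ((hI N k Z ι c κ (A a).g (A a).γ hκ hκ1 hSD.kN hSD.dsc hSD.c2 (hNI a).1).2.2.1 (S a) (hSm a)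
        (hSb a)) (hB3 a)
  have h4 : mz f N Z (Pt f Z k ι c κ R) = ∫⁻ z in Pt f Z k ι c κ R, F z :=
    withDensity_apply' _ _
  rw [h4]
  calc ∫⁻ z in Pt f Z k ι c κ R, F z
      ≤ ∫⁻ z in {z | eta z = 0} ∪ ⋃ a, (A a).g '' S a, F z := lintegral_mono_set h1
    _ ≤ (∫⁻ z in {z | eta z = 0}, F z) + ∫⁻ z in ⋃ a, (A a).g '' S a, F z :=
        lintegral_union_le _ _ _
    _ = ∫⁻ z in ⋃ a, (A a).g '' S a, F z := by rw [h2, zero_add]
    _ ≤ ∑' a, ∫⁻ z in (A a).g '' S a, F z := lintegral_iUnion_le _ _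
    _ = ∑ a, ∫⁻ z in (A a).g '' S a, F z := tsum_fintype _
    _ ≤ ∑ _a : Fin n, ENNReal.ofReal (((d : ℝ) ^ k * mass f N Z)⁻¹) * ENNReal.ofReal εT :=
        Finset.sum_le_sum fun a _ => h3 a
    _ = ENNReal.ofReal (n * ((((d : ℝ) ^ k * mass f N Z)⁻¹) * εT)) := by
        rw [Finset.sum_const, Finset.card_univ, Fintype.card_fin, nsmul_eq_mul,
          ← ENNReal.ofReal_mul (by positivity), ENNReal.ofReal_mul (Nat.cast_nonneg n),
          ENNReal.ofReal_natCast]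
    _ ≤ ENNReal.ofReal (C * εT) := by
        refine ENNReal.ofReal_le_ofReal ?_
        have h5 := hA.card
        have h6 : 0 < (d : ℝ) ^ k * mass f N Z := by positivity
        calc (n : ℝ) * ((((d : ℝ) ^ k * mass f N Z)⁻¹) * εT)
            ≤ C * ((d : ℝ) ^ k * mass f N Z) * ((((d : ℝ) ^ k * mass f N Z)⁻¹) * εT) :=
              mul_le_mul_of_nonneg_right h5 (by positivity)
          _ = C * εT := by field_simp

end Pool.Agent.P2
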